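import Pool.Agent.MP_9e8696_an.H68.Defs

/-!
The local one-label inequality `Loc` used in the one-block step.
-/

namespace Pool.Agent.MP_9e8696_an.H82

open Finset H68

variable {ι : Type} [Fintype ι]

/-- The quadratic form `u' J u`. -/
def qf (J : ι → ι → ℝ) (u : ι → ℝ) : ℝ := ∑ i, ∑ j, J i j * u i * u j

/-- The linear form `<b, x>` on the cube. -/
def lf (b : ι → ℝ) (x : ι → Bool) : ℝ := ∑ i, b i * sg (x i)

/-- The Gibbs weight `exp (x' J x / (1 - e))`. -/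
noncomputable def gw (e : ℝ) (J : ι → ι → ℝ) (x : ι → Bool) : ℝ :=
  Real.exp (qf J (fun i => sg (x i)) / (1 - e))

/-- The mean of `F` for the Gibbs weight. -/
noncomputable def gE [DecidableEq ι] (e : ℝ) (J : ι → ι → ℝ) (F : (ι → Bool) → ℝ) : ℝ :=
  (∑ x, gw e J x * F x) / ∑ x, gw e J x

/-- The emitted weight `w = <c,x>^2 + 1 - |c|^2`. -/
def ew (c : ι → ℝ) (x : ι → Bool) : ℝ := lf c x ^ 2 + (1 - ∑ i, c i ^ 2)

/-- The centred quadratic form `y = x' J x - tr J`. -/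
def yq (J : ι → ι → ℝ) (x : ι → Bool) : ℝ := qf J (fun i => sg (x i)) - ∑ i, J i i

/-- The local inequality for one label, with absolute constants `C`, `e₀`, `d₀`. -/
def Loc (C e₀ d₀ : ℝ) : Prop :=
  ∀ (ι : Type) [Fintype ι] [DecidableEq ι] (J₀ J₁ : ι → ι → ℝ) (b c : ι → ℝ) (δ e : ℝ),
    (∀ i j, J₀ i j = J₀ j i) → (∀ i j, J₁ i j = J₁ j i) →
    (∀ u, 0 ≤ qf J₀ u) → (∀ u, 0 ≤ qf J₁ u) →
    (∀ u, qf J₀ u + qf J₁ u ≤ δ * ∑ i, u i ^ 2) →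
    ∑ i, b i ^ 2 = 1 → 0 ≤ 1 - ∑ i, c i ^ 2 →
    ∑ i, (b i - c i) ^ 2 ≤ 2 * (1 - ∑ i, c i ^ 2) →
    0 < e → e ≤ e₀ → 0 < δ → δ ≤ d₀ →
    Real.exp (e * (gE e (fun i j => J₀ i j + J₁ i j) (ew c) - 1)
        - gE e (fun i j => J₀ i j + J₁ i j) (yq J₁) + qf J₀ b / 4
        - C * ∑ i, b i ^ 2 * J₀ i i - C * e * (1 - ∑ i, c i ^ 2)) ≤
      gE e (fun i j => J₀ i j + J₁ i j)
        (fun x => (lf b x ^ 2) ^ (1 - e) * ew c x ^ e * Real.exp (-yq J₁ x))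

end Pool.Agent.MP_9e8696_an.H82
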