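import Pool.Agent.MP_9e8696_an.H82.Par0
import Pool.Agent.MP_9e8696_an.H68.Crude

/-!
Label-level data extracted from an optimal weight: main masses, main values, main directions.
-/

namespace Pool.Agent.MP_9e8696_an.H82

open Finset hiding val
open H68

set_option linter.unusedSectionVars false

variable {τ ι : Type} [Fintype τ] [Fintype ι]

open Classical in
/-- The part of `g` on main indices. -/
noncomputable def mk (rel : τ → τ → Prop) (v g : τ × ι → ℝ) (S : τ × ι) : ℝ :=
  if Main rel v S then g S else 0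

open Classical in
/-- The part of `v` on tail indices. -/
noncomputable def tl (rel : τ → τ → Prop) (v : τ × ι → ℝ) (S : τ × ι) : ℝ :=
  if Tail rel v S then v S else 0

lemma mk_nonneg (rel : τ → τ → Prop) (v : τ × ι → ℝ) {g : τ × ι → ℝ} (hg : ∀ S, 0 ≤ g S)
    (S : τ × ι) : 0 ≤ mk rel v g S := by
  unfold mk; split_ifs
  · exact hg S
  · exact le_rfl

lemma mk_le (rel : τ → τ → Prop) (v : τ × ι → ℝ) {g : τ × ι → ℝ} (hg : ∀ S, 0 ≤ g S)
    (S : τ × ι) : mk rel v g S ≤ g S := by
  unfold mk; split_ifs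
  · exact le_rfl
  · exact hg S

lemma mk_add_tl (rel : τ → τ → Prop) {v : τ × ι → ℝ} (v0 : ∀ S, 0 ≤ v S) (S : τ × ι) :
    v S = mk rel v v S + tl rel v S := by
  unfold mk tl Main
  by_cases h : Tail rel v S
  · simp [h]
  · rcases (v0 S).eq_or_lt with h0 | h0
    · simp [h, ← h0]
    · simp [h, h0]

lemma lev_add {I : Type} [Fintype I] (rel : I → I → Prop) (f g : I → ℝ) (S : I) :
    lev rel (fun T => f T + g T) S = lev rel f S + lev rel g S := by
  unfold lev
  rw [← Finset.sum_add_distrib]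
  refine Finset.sum_congr rfl fun T _ => ?_
  split_ifs <;> simp

lemma uni_le_mul (rel : τ → τ → Prop) {f g : τ × ι → ℝ} {K : ℝ} (h : ∀ S, f S ≤ K * g S)
    (S : τ × ι) : uni rel f S ≤ K * uni rel g S := by
  unfold uni
  rw [Finset.mul_sum]
  refine Finset.sum_le_sum fun t _ => ?_
  split_ifs
  · simp
  · exact h _

/-- A ratio bound on main indices bounds the main mass against the normalised direction. -/
lemma mass_mul_le {rel : τ → τ → Prop} {v q g : τ × ι → ℝ} {K : ℝ} (hK : 0 ≤ K)
    (hq : ∀ S, 0 ≤ q S) (hg : ∀ S, 0 ≤ g S)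
    (hr : ∀ s i j, Main rel v (s, i) → Main rel v (s, j) →
      g (s, j) * q (s, i) ≤ K * (g (s, i) * q (s, j))) (s : τ) (i : ι) :
    (∑ j, mk rel v g (s, j)) * (mk rel v q (s, i) / ∑ j, q (s, j)) ≤ K * mk rel v g (s, i) := by
  by_cases hi : Main rel v (s, i)
  · have e1 : mk rel v q (s, i) = q (s, i) := by simp [mk, hi]
    have e2 : mk rel v g (s, i) = g (s, i) := by simp [mk, hi]
    rw [e1, e2]
    have hQ : 0 ≤ ∑ j, q (s, j) := Finset.sum_nonneg fun j _ => hq _
    rcases hQ.eq_or_lt with h0 | h0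
    · rw [← h0, div_zero, mul_zero]; exact mul_nonneg hK (hg _)
    · rw [← mul_div_assoc, div_le_iff₀ h0, Finset.sum_mul, Finset.mul_sum]
      refine Finset.sum_le_sum fun j _ => ?_
      by_cases hj : Main rel v (s, j)
      · have e3 : mk rel v g (s, j) = g (s, j) := by simp [mk, hj]
        rw [e3, mul_assoc]; exact hr s i j hi hj
      · have e3 : mk rel v g (s, j) = 0 := by simp [mk, hj]
        rw [e3, zero_mul]
        exact mul_nonneg (mul_nonneg hK (hg _)) (hq _)
  · simp [mk, hi]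

theorem pack {e : ℝ} (he : 0 < e) (he1 : e ≤ 1 / 2) {rel : τ → τ → Prop}
    (hs : ∀ s t, rel s t → rel t s) (a p : τ × ι → ℝ)
    (h : Opt e (prel rel) (fun S => a S ^ 2) p) :
    ∃ (P V : τ → ℝ) (m : τ → ι → ℝ), (∀ s, 0 ≤ P s) ∧ (∀ s, 0 ≤ V s) ∧
      Psi e (prel rel) (fun S => a S ^ 2) p -
        tailV rel (val e (prel rel) (fun S => a S ^ 2) p) ≤ ∑ s, V s ∧
      (∀ t, P t * lev rel V t ≤ e * V t) ∧
      ∑ t, (e * V t - P t * lev rel V t) ≤
        bud rel p (val e (prel rel) (fun S => a S ^ 2) p) +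
          tailH rel p (val e (prel rel) (fun S => a S ^ 2) p) ∧
      (∀ i, ∑ t, P t * m t i ^ 2 ≤ 21 * e) ∧
      ∑ s, V s * ∑ i, m s i ^ 2 * uni rel (fun S => P S.1 * m S.1 S.2 ^ 2) (s, i) ≤
        882 * bud rel p (val e (prel rel) (fun S => a S ^ 2) p) ∧
      (∀ s, ∑ i, m s i ^ 2 ≤ 1) ∧
      (∀ s, 0 < V s → ∃ (b : ι → ℝ) (Q : ℝ), 0 < Q ∧ ∑ i, b i ^ 2 = 1 ∧
        (∀ i, a (s, i) = Real.sqrt Q * b i) ∧ (∀ i, m s i = b i ∨ m s i = 0) ∧
        0 < ∑ i, m s i ^ 2 ∧
        V s ≤ (Q * ∑ i, m s i ^ 2) ^ (1 - e) * P s ^ e * Real.exp (-lev rel P s)) := by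
  set q : τ × ι → ℝ := fun S => a S ^ 2 with hqdef
  set v := val e (prel rel) q p with hvdef
  have hq : ∀ S, 0 ≤ q S := fun S => sq_nonneg _
  have hp := h.nonneg
  have v0 : ∀ S, 0 ≤ v S := val_nonneg hq hp
  set P : τ → ℝ := fun s => ∑ j, mk rel v p (s, j) with hP
  set V : τ → ℝ := fun s => ∑ j, mk rel v v (s, j) with hV
  set TV : τ → ℝ := fun s => ∑ j, tl rel v (s, j) with hTV
  set Q : τ → ℝ := fun s => ∑ j, q (s, j) with hQ
  set m : τ → ι → ℝ := fun s i => mk rel v a (s, i) / Real.sqrt (Q s) with hm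
  have Q0 : ∀ s, 0 ≤ Q s := fun s => Finset.sum_nonneg fun j _ => hq _
  have P0 : ∀ s, 0 ≤ P s := fun s => Finset.sum_nonneg fun j _ => mk_nonneg _ _ hp _
  have V0 : ∀ s, 0 ≤ V s := fun s => Finset.sum_nonneg fun j _ => mk_nonneg _ _ v0 _
  have tl0 : ∀ S, 0 ≤ tl rel v S := by
    intro S; unfold tl; split_ifs
    · exact v0 S
    · exact le_rfl
  have TV0 : ∀ s, 0 ≤ TV s := fun s => Finset.sum_nonneg fun j _ => tl0 _
  have msq : ∀ s i, m s i ^ 2 = mk rel v q (s, i) / Q s := by
    intro s i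
    simp only [hm]
    rw [div_pow, Real.sq_sqrt (Q0 s)]
    congr 1
    unfold mk; split_ifs <;> simp [hqdef]
  have split : ∀ s, ∑ j, v (s, j) = V s + TV s := by
    intro s
    simp only [hV, hTV]
    rw [← Finset.sum_add_distrib]
    exact Finset.sum_congr rfl fun j _ => mk_add_tl rel v0 _
  have Pm : ∀ s i, P s * m s i ^ 2 ≤ 21 * mk rel v p (s, i) := by
    intro s i
    rw [msq]
    exact mass_mul_le (by norm_num) hq hp (fun s i j hi hj => ratio_p he he1 hq h hi hj) s i
  have Vm : ∀ s i, V s * m s i ^ 2 ≤ 42 * mk rel v v (s, i) := by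
    intro s i
    rw [msq]
    exact mass_mul_le (by norm_num) hq v0 (fun s i j hi hj => ratio_v he he1 hq h hi hj) s i
  have PH : ∀ s i, lev rel P s ≤ lev (prel rel) p (s, i) := by
    intro s i
    rw [lev_prel]
    have h1 : lev rel P s ≤ lev rel (fun t => ∑ i, p (t, i)) s :=
      lev_mono rel (fun t => Finset.sum_le_sum fun j _ => mk_le _ _ hp _) s
    have h2 := uni_nonneg rel p hp (s, i)
    linarith
  have eV : ∀ t, e * V t - P t * lev rel V t =
      P t * lev rel TV t + ∑ j, mk rel v p (t, j) * uni rel v (t, j) := by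
    intro t
    have h1 : ∀ j, e * mk rel v v (t, j) =
        mk rel v p (t, j) * (lev rel V t + lev rel TV t + uni rel v (t, j)) := by
      intro j
      rw [← lev_add]
      have : (fun T => V T + TV T) = fun t => ∑ i, v (t, i) := by
        funext T; exact (split T).symm
      rw [this, ← lev_prel]
      unfold mk; split_ifs
      · exact h.kkt _
      · simp
    have h2 : e * V t = ∑ j, mk rel v p (t, j) *
        (lev rel V t + lev rel TV t + uni rel v (t, j)) := by
      simp only [hV]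
      rw [Finset.mul_sum]
      exact Finset.sum_congr rfl fun j _ => h1 j
    rw [h2]
    simp only [mul_add, Finset.sum_add_distrib, ← Finset.sum_mul]
    simp only [hP]
    ring
  refine ⟨P, V, m, P0, V0, ?_, ?_, ?_, ?_, ?_, ?_, ?_⟩
  · have h1 : Psi e (prel rel) q p = ∑ s, (V s + TV s) := by
      unfold Psi
      rw [Fintype.sum_prod_type]
      exact Finset.sum_congr rfl fun s _ => split s
    have h2 : tailV rel v = ∑ s, TV s := by
      unfold tailV
      rw [Fintype.sum_prod_type]
      rfl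
    rw [h1, h2, Finset.sum_add_distrib]
    linarith
  · intro t
    have h1 := eV t
    have h2 : 0 ≤ P t * lev rel TV t := mul_nonneg (P0 t) (lev_nonneg rel TV TV0 t)
    have h3 : 0 ≤ ∑ j, mk rel v p (t, j) * uni rel v (t, j) :=
      Finset.sum_nonneg fun j _ => mul_nonneg (mk_nonneg _ _ hp _) (uni_nonneg rel v v0 _)
    linarith
  · simp only [eV]
    rw [Finset.sum_add_distrib, lev_swap rel hs P TV, add_comm]
    refine add_le_add ?_ ?_
    · unfold bud
      rw [Fintype.sum_prod_type]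
      exact Finset.sum_le_sum fun t _ => Finset.sum_le_sum fun j _ =>
        mul_le_mul_of_nonneg_right (mk_le _ _ hp _) (uni_nonneg rel v v0 _)
    · unfold tailH
      rw [Fintype.sum_prod_type]
      refine Finset.sum_le_sum fun s _ => ?_
      simp only [hTV]
      rw [Finset.sum_mul]
      refine Finset.sum_le_sum fun i _ => ?_
      unfold tl; split_ifs
      · exact mul_le_mul_of_nonneg_left (PH s i) (v0 _)
      · simp
  · intro i
    refine (Finset.sum_le_sum fun t _ => Pm t i).trans ?_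
    rw [← Finset.mul_sum]
    refine mul_le_mul_of_nonneg_left ?_ (by norm_num)
    by_cases hx : ∃ t, Main rel v (t, i)
    · obtain ⟨t, ht⟩ := hx
      exact (Finset.sum_le_sum fun t _ => mk_le _ _ hp _).trans (col_le hq h ht.1)
    · have : ∀ t, mk rel v p (t, i) = 0 := fun t => by
        have : ¬ Main rel v (t, i) := fun ht => hx ⟨t, ht⟩
        simp [mk, this]
      simp [this, he.le]
  · have h1 : ∀ S : τ × ι, uni rel (fun S => P S.1 * m S.1 S.2 ^ 2) S ≤ 21 * uni rel p S :=
      uni_le_mul rel fun S => (Pm S.1 S.2).trans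
        (mul_le_mul_of_nonneg_left (mk_le _ _ hp _) (by norm_num))
    unfold bud
    rw [uni_swap rel hs p v, Fintype.sum_prod_type, Finset.mul_sum]
    refine Finset.sum_le_sum fun s _ => ?_
    rw [Finset.mul_sum, Finset.mul_sum]
    refine Finset.sum_le_sum fun i _ => ?_
    have h2 : V s * m s i ^ 2 ≤ 42 * v (s, i) :=
      (Vm s i).trans (mul_le_mul_of_nonneg_left (mk_le _ _ v0 _) (by norm_num))
    have h3 : 0 ≤ uni rel (fun S => P S.1 * m S.1 S.2 ^ 2) (s, i) :=
      uni_nonneg rel _ (fun S => mul_nonneg (P0 _) (sq_nonneg _)) _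
    calc V s * (m s i ^ 2 * uni rel (fun S => P S.1 * m S.1 S.2 ^ 2) (s, i))
        = (V s * m s i ^ 2) * uni rel (fun S => P S.1 * m S.1 S.2 ^ 2) (s, i) := by ring
      _ ≤ (42 * v (s, i)) * (21 * uni rel p (s, i)) :=
          mul_le_mul h2 (h1 _) h3 (mul_nonneg (by norm_num) (v0 _))
      _ = 882 * (v (s, i) * uni rel p (s, i)) := by ring
  · intro s
    simp only [msq]
    rw [← Finset.sum_div]
    exact div_le_one_of_le₀ (Finset.sum_le_sum fun j _ => mk_le _ _ hq _) (Q0 s)
  · intro s hVs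
    have hx : ∃ j, Main rel v (s, j) := by
      by_contra hx
      have : V s = 0 := Finset.sum_eq_zero fun j _ => by
        have : ¬ Main rel v (s, j) := fun ht => hx ⟨j, ht⟩
        simp [mk, this]
      linarith
    obtain ⟨j, hj⟩ := hx
    have qj := (pos_of_val he he1 hq hp hj.1).1
    have Qm : 0 < ∑ i, mk rel v q (s, i) := by
      refine lt_of_lt_of_le ?_ (Finset.single_le_sum (f := fun i => mk rel v q (s, i))
        (fun i _ => mk_nonneg _ _ hq _) (Finset.mem_univ j))
      simpa [mk, hj] using qj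
    have Qs : 0 < Q s := lt_of_lt_of_le Qm (Finset.sum_le_sum fun j _ => mk_le _ _ hq _)
    have sQ : 0 < Real.sqrt (Q s) := Real.sqrt_pos.2 Qs
    have hm2 : ∑ i, m s i ^ 2 = (∑ i, mk rel v q (s, i)) / Q s := by
      simp only [msq]; rw [← Finset.sum_div]
    refine ⟨fun i => a (s, i) / Real.sqrt (Q s), Q s, Qs, ?_, ?_, ?_, ?_, ?_⟩
    · simp only [div_pow, Real.sq_sqrt Qs.le]
      rw [← Finset.sum_div]
      exact div_self Qs.ne'
    · intro i; field_simp
    · intro i
      simp only [hm]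
      unfold mk; split_ifs
      · exact Or.inl rfl
      · exact Or.inr (zero_div _)
    · rw [hm2]; positivity
    · rw [hm2, mul_div_cancel₀ _ Qs.ne']
      have hh := holder (Finset.univ : Finset ι) he (by linarith)
        (q := fun i => mk rel v q (s, i)) (p := fun i => mk rel v p (s, i))
        (fun i _ => mk_nonneg _ _ hq _) (fun i _ => mk_nonneg _ _ hp _)
      refine le_trans ?_ (mul_le_mul_of_nonneg_right hh (Real.exp_pos _).le)
      rw [Finset.sum_mul]
      refine Finset.sum_le_sum fun i _ => ?_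
      by_cases hi : Main rel v (s, i)
      · simp only [mk, if_pos hi]
        have h1 := hq (s, i)
        have h2 := hp (s, i)
        exact mul_le_mul_of_nonneg_left (Real.exp_le_exp.2 (neg_le_neg (PH s i))) (by positivity)
      · simp only [mk, if_neg hi]
        positivity

end Pool.Agent.MP_9e8696_an.H82
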