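import Pool.Agent.MP_9e8696_an.H82.Label
import Pool.Agent.MP_9e8696_an.H82.Pack
import Pool.Agent.MP_9e8696_an.H78.Sat

/-!
The one-block step `Core` from the local inequality `Loc`.
-/

namespace Pool.Agent.MP_9e8696_an.H82

open Finset hiding val
open H68

set_option linter.unusedSectionVars false

open Classical in
lemma lev_eq_filter {τ : Type} [Fintype τ] (rel : τ → τ → Prop) (g : τ → ℝ) (s : τ) :
    lev rel g s = ∑ t ∈ Finset.univ.filter (rel s), g t := by
  unfold lev
  rw [Finset.sum_filter]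

open Classical in
lemma uni_eq_filter {τ ι : Type} [Fintype τ] [DecidableEq τ] (rel : τ → τ → Prop) (g : τ × ι → ℝ)
    (s : τ) (i : ι) : uni rel g (s, i) = ∑ t ∈ (Finset.univ.filter (rel s))ᶜ, g (t, i) := by
  unfold uni
  rw [Finset.compl_filter, Finset.sum_filter]
  refine Finset.sum_congr rfl fun t _ => ?_
  by_cases h : rel s t <;> simp [h]

theorem core_of_loc {C e₀ d₀ : ℝ} (hC : 0 ≤ C) (he₀ : 0 < e₀) (hd₀ : 0 < d₀) (hL : Loc C e₀ d₀) :
    ∃ e C' : ℝ, 0 < e ∧ e ≤ 1 / 2 ∧ Core e C' := by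
  classical
  set δ := min d₀ (1 / (4 * (C + 1))) with hδdef
  have hδ : 0 < δ := lt_min hd₀ (by positivity)
  have hδC : δ * (C + 1) ≤ 1 / 4 := by
    have h1 : δ ≤ 1 / (4 * (C + 1)) := min_le_right _ _
    rw [le_div_iff₀ (by positivity)] at h1
    linarith
  set e := min e₀ (δ / (64 * (C + 1))) with hedef
  have he : 0 < e := lt_min he₀ (by positivity)
  have heC : e * (64 * (C + 1)) ≤ δ := by
    have h1 : e ≤ δ / (64 * (C + 1)) := min_le_right _ _
    rwa [le_div_iff₀ (by positivity)] at h1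
  have hCe : 0 ≤ C * e := mul_nonneg hC he.le
  have heδ : e ≤ δ := by nlinarith
  have hδ4 : δ ≤ 1 / 4 := by nlinarith [mul_nonneg hδ.le hC]
  have he1 : e ≤ 1 / 2 := by linarith
  refine ⟨e, 1 + 6 * C * 882, he, he1, ?_⟩
  intro τ ι _ _ _ _ rel _ hs a p h
  obtain ⟨P, V, m, P0, V0, hsum, heps, hsumeps, hcol, hbud, hm1, hlab⟩ := pack he he1 hs a p h
  obtain ⟨c, B, S1, S2, S2', SB, S3, S4⟩ := AABml.H78.sat P P0 m δ hδ
  set v := val e (prel rel) (fun S => a S ^ 2) p with hv
  have v0 : ∀ S, 0 ≤ v S := val_nonneg (fun S => sq_nonneg _) h.nonneg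
  set J := gram Finset.univ P c with hJ
  set K := 4 * (21 * e) / δ with hK
  have K0 : 0 ≤ K := by positivity
  have c1 : ∀ t, 0 ≤ 1 - ∑ i, c t i ^ 2 := by
    intro t
    have h1 : 0 ≤ ∑ i, (m t i - c t i) ^ 2 := Finset.sum_nonneg fun i _ => sq_nonneg _
    have := S2 t
    have := hm1 t
    linarith
  have w0 : ∀ t x, 0 ≤ ew (c t) x := fun t x => add_nonneg (sq_nonneg _) (c1 t)
  set φ : τ → ℝ := fun t => gE e J (ew (c t)) - 1 with hφ
  have φ1 : ∀ t, -1 ≤ φ t := by
    intro t
    have : 0 ≤ gE e J (ew (c t)) := by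
      rw [gE_eq]
      exact Finset.sum_nonneg fun x _ => mul_nonneg (gp_pos e J x).le (w0 t x)
    simp only [hφ]
    linarith
  set E : τ → ℝ := fun s => lev rel (fun t => P t * B t) s with hE
  have E0 : ∀ s, 0 ≤ E s := fun s => lev_nonneg rel _ (fun t => mul_nonneg (P0 t) (SB t).1) s
  set U : τ → ℝ := fun s => ∑ i, m s i ^ 2 * uni rel (fun S => P S.1 * m S.1 S.2 ^ 2) (s, i)
    with hU
  set nv : (ι → Bool) → τ → ℝ :=
    fun x => val e rel (fun s => lin a x s ^ 2) (fun t => P t * ew (c t) x) with hnv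
  have nv0 : ∀ x s, 0 ≤ nv x s := fun x s =>
    val_nonneg (fun _ => sq_nonneg _) (fun t => mul_nonneg (P0 t) (w0 t x)) s
  have lab : ∀ s, V s * (1 + (e * φ s - lev rel (fun t => P t * φ t) s
      + (δ / 16 - C * e) * B s - (3 / 8 + C * K) * E s - 6 * C * U s)) ≤
      ∑ x, gp e J x * nv x s := by
    intro s
    rcases (V0 s).eq_or_lt with h0 | h0
    · rw [← h0, zero_mul]
      exact Finset.sum_nonneg fun x _ => mul_nonneg (gp_pos e J x).le (nv0 x s)
    obtain ⟨b, Q, hQ, hb, hab, hmb, hM, hV⟩ := hlab s h0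
    set A := Finset.univ.filter (rel s) with hA
    have l1 := label hL hC he (min_le_left _ _) hδ (min_le_left _ _) hδC heδ A P P0 c s b (m s)
      (B s) (E s) K (fun i => uni rel (fun S => P S.1 * m S.1 S.2 ^ 2) (s, i)) (E0 s) K0 S1
      (S2 s) (S2' s)
      (fun i => by
        simp only [hE]
        rw [uni_eq_filter, lev_eq_filter]
        exact S3 A i (21 * e) (hcol i))
      (by
        simp only [hE]
        rw [lev_eq_filter]
        exact S4 A s (hm1 s)) hb hmb
    rw [lev_eq_filter rel (fun t => P t * φ t) s]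
    refine (mul_le_mul_of_nonneg_left l1 h0.le).trans ?_
    rw [gE_eq, ← mul_assoc, Finset.mul_sum]
    refine Finset.sum_le_sum fun x _ => ?_
    have e1 : lin a x s ^ 2 = Q * lf b x ^ 2 := by
      have : lin a x s = Real.sqrt Q * lf b x := by
        unfold lin lf
        rw [Finset.mul_sum]
        exact Finset.sum_congr rfl fun i _ => by rw [hab i]; ring
      rw [this, mul_pow, Real.sq_sqrt hQ.le]
    have e2 : lev rel (fun t => P t * ew (c t) x) s = lev rel P s + yq (gram A P c) x := by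
      rw [yq_gram, lev_eq_filter, lev_eq_filter, ← Finset.sum_add_distrib]
      exact Finset.sum_congr rfl fun t _ => by ring
    have e3 : nv x s = (Q ^ (1 - e) * P s ^ e * Real.exp (-lev rel P s)) *
        ((lf b x ^ 2) ^ (1 - e) * ew (c s) x ^ e * Real.exp (-yq (gram A P c) x)) := by
      simp only [hnv]
      unfold H68.val
      simp only []
      rw [e1, e2, Real.mul_rpow hQ.le (sq_nonneg _), Real.mul_rpow (P0 s) (w0 s x), neg_add,
        Real.exp_add]
      ring
    have e4 : V s * Real.exp ((1 - ∑ i, m s i ^ 2) / 2) ≤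
        Q ^ (1 - e) * P s ^ e * Real.exp (-lev rel P s) := by
      have g := rpow_gam hM (hm1 s) he1
      rw [Real.mul_rpow hQ.le hM.le] at hV
      have p1 : 0 ≤ Q ^ (1 - e) * P s ^ e * Real.exp (-lev rel P s) := by
        have := P0 s
        positivity
      calc V s * Real.exp ((1 - ∑ i, m s i ^ 2) / 2)
          ≤ (Q ^ (1 - e) * (∑ i, m s i ^ 2) ^ (1 - e) * P s ^ e * Real.exp (-lev rel P s)) *
            Real.exp ((1 - ∑ i, m s i ^ 2) / 2) :=
            mul_le_mul_of_nonneg_right hV (Real.exp_pos _).le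
        _ = (Q ^ (1 - e) * P s ^ e * Real.exp (-lev rel P s)) *
            ((∑ i, m s i ^ 2) ^ (1 - e) * Real.exp ((1 - ∑ i, m s i ^ 2) / 2)) := by ring
        _ ≤ _ := mul_le_of_le_one_right p1 g
    have p2 : 0 ≤ (lf b x ^ 2) ^ (1 - e) * ew (c s) x ^ e * Real.exp (-yq (gram A P c) x) := by
      have := w0 s x
      positivity
    rw [e3, mul_left_comm]
    exact mul_le_mul_of_nonneg_left (mul_le_mul_of_nonneg_right e4 p2) (gp_pos e J x).le
  -- summation over the labels
  have s1 : ∑ s, V s * lev rel (fun t => P t * φ t) s = ∑ t, φ t * (P t * lev rel V t) := by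
    rw [lev_swap rel hs]
    exact Finset.sum_congr rfl fun t _ => by ring
  have s2 : -∑ t, (e * V t - P t * lev rel V t) ≤
      e * ∑ s, V s * φ s - ∑ t, φ t * (P t * lev rel V t) := by
    rw [Finset.mul_sum, ← Finset.sum_sub_distrib, ← Finset.sum_neg_distrib]
    refine Finset.sum_le_sum fun t _ => ?_
    have h1 := heps t
    have h2 := φ1 t
    nlinarith
  have s3 : ∑ s, V s * E s ≤ e * ∑ s, V s * B s := by
    simp only [hE]
    rw [lev_swap rel hs, Finset.mul_sum]
    refine Finset.sum_le_sum fun t _ => ?_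
    have h1 := mul_le_mul_of_nonneg_left (heps t) (SB t).1
    nlinarith
  have s4 : 0 ≤ ∑ s, V s * B s := Finset.sum_nonneg fun s _ => mul_nonneg (V0 s) (SB s).1
  have s5 : (3 / 8 + C * K) * e ≤ δ / 16 - C * e := by
    have h1 : C * K * e ≤ 84 * e / 64 := by
      have : C * K * e = 84 * e * (C * e / δ) := by rw [hK]; ring
      rw [this]
      have h2 : C * e / δ ≤ 1 / 64 := by rw [div_le_iff₀ hδ]; nlinarith
      nlinarith
    nlinarith
  have s6 : ∑ s, V s * (1 + (e * φ s - lev rel (fun t => P t * φ t) s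
      + (δ / 16 - C * e) * B s - (3 / 8 + C * K) * E s - 6 * C * U s)) =
      ∑ s, V s + (e * ∑ s, V s * φ s - ∑ s, V s * lev rel (fun t => P t * φ t) s)
        + (δ / 16 - C * e) * ∑ s, V s * B s - (3 / 8 + C * K) * ∑ s, V s * E s
        - 6 * C * ∑ s, V s * U s := by
    simp only [Finset.mul_sum, ← Finset.sum_add_distrib, ← Finset.sum_sub_distrib]
    exact Finset.sum_congr rfl fun s _ => by ring
  have b0 : 0 ≤ bud rel p v := Finset.sum_nonneg fun S _ =>
    mul_nonneg (h.nonneg S) (uni_nonneg rel v v0 S)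
  have b1 : 0 ≤ tailV rel v := Finset.sum_nonneg fun S _ => by
    split_ifs
    · exact v0 S
    · exact le_rfl
  have b2 : 0 ≤ tailH rel p v := Finset.sum_nonneg fun S _ => by
    split_ifs
    · exact mul_nonneg (v0 S) (lev_nonneg _ _ h.nonneg S)
    · exact le_rfl
  have tot : Psi e (prel rel) (fun S => a S ^ 2) p -
      (1 + 6 * C * 882) * (bud rel p v + tailV rel v + tailH rel p v) ≤
      ∑ x, gp e J x * ∑ s, nv x s := by
    have h1 := Finset.sum_le_sum fun s (_ : s ∈ Finset.univ) => lab s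
    rw [s6, s1, Finset.sum_comm] at h1
    simp only [← Finset.mul_sum] at h1
    have h2 : (3 / 8 + C * K) * ∑ s, V s * E s ≤ (δ / 16 - C * e) * ∑ s, V s * B s :=
      (mul_le_mul_of_nonneg_left s3 (by positivity)).trans
        (by rw [← mul_assoc]; exact mul_le_mul_of_nonneg_right s5 s4)
    have h3 : 6 * C * ∑ s, V s * U s ≤ 6 * C * (882 * bud rel p v) :=
      mul_le_mul_of_nonneg_left hbud (by positivity)
    have h4 := mul_nonneg hC b1
    have h5 := mul_nonneg hC b2
    nlinarith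
  obtain ⟨x, -, hx⟩ := Finset.exists_max_image (Finset.univ : Finset (ι → Bool))
    (fun x => ∑ s, nv x s) Finset.univ_nonempty
  refine ⟨x, fun t => P t * ew (c t) x, fun t => mul_nonneg (P0 t) (w0 t x), tot.trans ?_⟩
  calc ∑ y, gp e J y * ∑ s, nv y s ≤ ∑ y, gp e J y * ∑ s, nv x s :=
        Finset.sum_le_sum fun y _ =>
          mul_le_mul_of_nonneg_left (hx y (Finset.mem_univ y)) (gp_pos e J y).le
    _ = ∑ s, nv x s := by rw [← Finset.sum_mul, gp_sum, one_mul]
    _ = _ := rfl

end Pool.Agent.MP_9e8696_an.H82
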