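import Pool.Agent.MP_9e8696_an.H68.Defs

/-!
Consequences of the first-order conditions before a block is revealed: column bound, ratios on
main indices.
-/

namespace Pool.Agent.MP_9e8696_an.H82

open Finset hiding val
open H68

set_option linter.unusedSectionVars false

variable {τ ι : Type} [Fintype τ] [Fintype ι]

lemma lev_nonneg {I : Type} [Fintype I] (rel : I → I → Prop) (g : I → ℝ) (hg : ∀ S, 0 ≤ g S)
    (S : I) : 0 ≤ lev rel g S := by
  unfold lev
  refine Finset.sum_nonneg fun T _ => ?_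
  split_ifs
  · exact hg T
  · exact le_rfl

lemma lev_mono {I : Type} [Fintype I] (rel : I → I → Prop) {g g' : I → ℝ} (h : ∀ S, g S ≤ g' S)
    (S : I) : lev rel g S ≤ lev rel g' S := by
  unfold lev
  refine Finset.sum_le_sum fun T _ => ?_
  split_ifs
  · exact h T
  · exact le_rfl

lemma lev_swap {I : Type} [Fintype I] (rel : I → I → Prop) (hs : ∀ s t, rel s t → rel t s)
    (f g : I → ℝ) : ∑ s, f s * lev rel g s = ∑ t, g t * lev rel f t := by
  unfold lev
  simp only [Finset.mul_sum]
  rw [Finset.sum_comm]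
  refine Finset.sum_congr rfl fun t _ => Finset.sum_congr rfl fun s _ => ?_
  by_cases h : rel s t
  · rw [if_pos h, if_pos (hs _ _ h)]; ring
  · rw [if_neg h, if_neg (fun h' => h (hs _ _ h'))]; ring

lemma uni_nonneg (rel : τ → τ → Prop) (g : τ × ι → ℝ) (hg : ∀ S, 0 ≤ g S) (S : τ × ι) :
    0 ≤ uni rel g S := by
  unfold uni
  refine Finset.sum_nonneg fun T _ => ?_
  split_ifs
  · exact le_rfl
  · exact hg _

lemma uni_le (rel : τ → τ → Prop) (g : τ × ι → ℝ) (hg : ∀ S, 0 ≤ g S) (S : τ × ι) :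
    uni rel g S ≤ ∑ t, g (t, S.2) := by
  unfold uni
  refine Finset.sum_le_sum fun T _ => ?_
  split_ifs
  · exact hg _
  · exact le_rfl

lemma uni_swap (rel : τ → τ → Prop) (hs : ∀ s t, rel s t → rel t s) (f g : τ × ι → ℝ) :
    ∑ S, f S * uni rel g S = ∑ S, g S * uni rel f S := by
  unfold uni
  rw [Fintype.sum_prod_type_right, Fintype.sum_prod_type_right]
  refine Finset.sum_congr rfl fun j _ => ?_
  simp only [Finset.mul_sum]
  rw [Finset.sum_comm]
  refine Finset.sum_congr rfl fun t _ => Finset.sum_congr rfl fun s _ => ?_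
  by_cases h : rel s t
  · rw [if_pos h, if_pos (hs _ _ h)]; ring
  · rw [if_neg h, if_neg (fun h' => h (hs _ _ h'))]; ring

lemma lev_prel (rel : τ → τ → Prop) (g : τ × ι → ℝ) (s : τ) (j : ι) :
    lev (prel rel) g (s, j) = lev rel (fun t => ∑ i, g (t, i)) s + uni rel g (s, j) := by
  classical
  unfold lev uni
  rw [Fintype.sum_prod_type, ← Finset.sum_add_distrib]
  refine Finset.sum_congr rfl fun t _ => ?_
  by_cases h : rel s t
  · simp [prel, h]
  · simp [prel, h]

lemma col_le_lev (rel : τ → τ → Prop) (g : τ × ι → ℝ) (hg : ∀ S, 0 ≤ g S) (s : τ) (j : ι) :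
    ∑ t, g (t, j) ≤ lev (prel rel) g (s, j) := by
  rw [lev_prel]
  unfold lev uni
  rw [← Finset.sum_add_distrib]
  refine Finset.sum_le_sum fun t _ => ?_
  by_cases h : rel s t
  · simp only [if_pos h, add_zero]
    exact Finset.single_le_sum (f := fun i => g (t, i)) (fun i _ => hg _) (Finset.mem_univ j)
  · simp [h]

section
variable {e : ℝ} {I : Type} [Fintype I] {rl : I → I → Prop} {q p : I → ℝ}

lemma val_nonneg (hq : ∀ S, 0 ≤ q S) (hp : ∀ S, 0 ≤ p S) (S : I) : 0 ≤ val e rl q p S := by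
  unfold H68.val
  have := hq S
  have := hp S
  positivity

lemma pos_of_val (he : 0 < e) (he1 : e ≤ 1 / 2) (hq : ∀ S, 0 ≤ q S) (hp : ∀ S, 0 ≤ p S) {S : I}
    (h : 0 < val e rl q p S) : 0 < q S ∧ 0 < p S := by
  unfold H68.val at h
  constructor
  · rcases (hq S).eq_or_lt with h0 | h0
    · rw [← h0, Real.zero_rpow (by linarith)] at h; simp at h
    · exact h0
  · rcases (hp S).eq_or_lt with h0 | h0
    · rw [← h0, Real.zero_rpow he.ne'] at h; simp at h
    · exact h0

end

variable {e : ℝ} {rel : τ → τ → Prop} {q p : τ × ι → ℝ}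

/-- Column bound `P_jj ≤ e`. -/
lemma col_le (hq : ∀ S, 0 ≤ q S) (h : Opt e (prel rel) q p) {s : τ} {j : ι}
    (hv : 0 < val e (prel rel) q p (s, j)) : ∑ t, p (t, j) ≤ e := by
  set v := val e (prel rel) q p with hvdef
  have v0 : ∀ S, 0 ≤ v S := val_nonneg hq h.nonneg
  have hV : 0 < ∑ t, v (t, j) :=
    lt_of_lt_of_le hv
      (Finset.single_le_sum (f := fun t => v (t, j)) (fun t _ => v0 _) (Finset.mem_univ s))
  have h1 : (∑ t, p (t, j)) * ∑ t, v (t, j) ≤ e * ∑ t, v (t, j) := by
    rw [Finset.sum_mul, Finset.mul_sum _ _ e]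
    refine Finset.sum_le_sum fun t _ => ?_
    rw [h.kkt (t, j)]
    exact mul_le_mul_of_nonneg_left (col_le_lev rel v v0 t j) (h.nonneg _)
  exact le_of_mul_le_mul_right h1 hV

/-- Main indices: positive value and not a tail index. -/
def Main (rel : τ → τ → Prop) (v : τ × ι → ℝ) (S : τ × ι) : Prop := 0 < v S ∧ ¬ Tail rel v S

lemma lev_main_le {v : τ × ι → ℝ} (v0 : ∀ S, 0 ≤ v S) {s : τ} {i j : ι}
    (hj : Main rel v (s, j)) : lev (prel rel) v (s, j) ≤ 2 * lev (prel rel) v (s, i) := by
  have h1 := hj.2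
  unfold Tail at h1
  rw [lev_prel] at h1 ⊢
  rw [lev_prel]
  have := uni_nonneg rel v v0 (s, i)
  linarith

lemma log_kkt (he : 0 < e) (he1 : e ≤ 1 / 2) (hq : ∀ S, 0 ≤ q S) (h : Opt e (prel rel) q p)
    {S : τ × ι} (hv : 0 < val e (prel rel) q p S) :
    0 < lev (prel rel) (val e (prel rel) q p) S ∧
    (1 - e) * (Real.log (p S) - Real.log (q S)) =
      Real.log e - lev (prel rel) p S - Real.log (lev (prel rel) (val e (prel rel) q p) S) := by
  obtain ⟨hq', hp'⟩ := pos_of_val he he1 hq h.nonneg hv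
  have k := h.kkt S
  have hR : 0 < lev (prel rel) (val e (prel rel) q p) S := by
    have : 0 < p S * lev (prel rel) (val e (prel rel) q p) S := by rw [← k]; positivity
    exact (pos_iff_pos_of_mul_pos this).1 hp'
  refine ⟨hR, ?_⟩
  have k2 := congrArg Real.log k
  rw [Real.log_mul he.ne' hv.ne', Real.log_mul hp'.ne' hR.ne'] at k2
  have k3 : Real.log (val e (prel rel) q p S) =
      (1 - e) * Real.log (q S) + e * Real.log (p S) - lev (prel rel) p S := by
    conv_lhs => unfold H68.val
    rw [Real.log_mul (by positivity) (Real.exp_pos _).ne',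
      Real.log_mul (by positivity) (by positivity), Real.log_rpow hq', Real.log_rpow hp',
      Real.log_exp]
    ring
  rw [k3] at k2
  linarith

lemma exp_three_le : Real.exp 3 ≤ 21 := by
  have h := Real.exp_one_lt_d9
  have h0 := Real.exp_pos 1
  have : Real.exp 3 = Real.exp 1 ^ 3 := by rw [← Real.exp_nat_mul]; norm_num
  rw [this]
  have h2 : Real.exp 1 ^ 3 ≤ (2.7182818286 : ℝ) ^ 3 := pow_le_pow_left₀ h0.le h.le 3
  refine h2.trans (by norm_num)

/-- On main indices of one label the ratios `p / q` agree up to the factor `21`. -/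
lemma ratio_p (he : 0 < e) (he1 : e ≤ 1 / 2) (hq : ∀ S, 0 ≤ q S) (h : Opt e (prel rel) q p)
    {s : τ} {i j : ι} (hi : Main rel (val e (prel rel) q p) (s, i))
    (hj : Main rel (val e (prel rel) q p) (s, j)) :
    p (s, j) * q (s, i) ≤ 21 * (p (s, i) * q (s, j)) := by
  have v0 : ∀ S, 0 ≤ val e (prel rel) q p S := val_nonneg hq h.nonneg
  obtain ⟨qi, pi⟩ := pos_of_val he he1 hq h.nonneg hi.1
  obtain ⟨qj, pj⟩ := pos_of_val he he1 hq h.nonneg hj.1
  obtain ⟨Ri, ki⟩ := log_kkt he he1 hq h hi.1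
  obtain ⟨Rj, kj⟩ := log_kkt he he1 hq h hj.1
  have hH : lev (prel rel) p (s, i) ≤ lev (prel rel) p (s, j) + e := by
    rw [lev_prel, lev_prel]
    have h1 := uni_nonneg rel p h.nonneg (s, j)
    have h2 := (uni_le rel p h.nonneg (s, i)).trans (col_le hq h hi.1)
    linarith
  have hR : Real.log (lev (prel rel) (val e (prel rel) q p) (s, i)) ≤
      Real.log (lev (prel rel) (val e (prel rel) q p) (s, j)) + 1 := by
    have h1 := Real.log_le_log Ri (lev_main_le (i := j) v0 hi)
    rw [Real.log_mul (by norm_num) Rj.ne'] at h1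
    have := Real.log_two_lt_d9
    linarith
  set D := Real.log (p (s, j)) - Real.log (q (s, j)) -
    (Real.log (p (s, i)) - Real.log (q (s, i))) with hD
  have h1 : (1 - e) * D ≤ 3 / 2 := by rw [hD]; nlinarith
  have h2 : D ≤ 3 := by nlinarith
  have h3 : Real.log (p (s, j) * q (s, i)) ≤ Real.log (Real.exp 3 * (p (s, i) * q (s, j))) := by
    rw [Real.log_mul pj.ne' qi.ne', Real.log_mul (Real.exp_pos _).ne' (by positivity),
      Real.log_mul pi.ne' qj.ne', Real.log_exp]
    linarith
  have h4 := (Real.log_le_log_iff (by positivity) (by positivity)).1 h3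
  exact h4.trans (mul_le_mul_of_nonneg_right exp_three_le (by positivity))

/-- On main indices of one label the ratios `v / q` agree up to the factor `42`. -/
lemma ratio_v (he : 0 < e) (he1 : e ≤ 1 / 2) (hq : ∀ S, 0 ≤ q S) (h : Opt e (prel rel) q p)
    {s : τ} {i j : ι} (hi : Main rel (val e (prel rel) q p) (s, i))
    (hj : Main rel (val e (prel rel) q p) (s, j)) :
    val e (prel rel) q p (s, j) * q (s, i) ≤ 42 * (val e (prel rel) q p (s, i) * q (s, j)) := by
  have v0 : ∀ S, 0 ≤ val e (prel rel) q p S := val_nonneg hq h.nonneg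
  have h1 := ratio_p he he1 hq h hi hj
  have h2 := lev_main_le (i := i) v0 hj
  have ki := h.kkt (s, i)
  have kj := h.kkt (s, j)
  have Rj := lev_nonneg (prel rel) _ v0 (s, j)
  have hpq : 0 ≤ p (s, i) * q (s, j) := mul_nonneg (h.nonneg _) (hq _)
  have h3 : e * (val e (prel rel) q p (s, j) * q (s, i)) ≤
      e * (42 * (val e (prel rel) q p (s, i) * q (s, j))) := by
    calc e * (val e (prel rel) q p (s, j) * q (s, i))
        = (p (s, j) * q (s, i)) * lev (prel rel) (val e (prel rel) q p) (s, j) := by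
          rw [← mul_assoc, kj]; ring
      _ ≤ (21 * (p (s, i) * q (s, j))) * lev (prel rel) (val e (prel rel) q p) (s, j) :=
          mul_le_mul_of_nonneg_right h1 Rj
      _ ≤ (21 * (p (s, i) * q (s, j))) * (2 * lev (prel rel) (val e (prel rel) q p) (s, i)) :=
          mul_le_mul_of_nonneg_left h2 (by positivity)
      _ = 42 * ((p (s, i) * lev (prel rel) (val e (prel rel) q p) (s, i)) * q (s, j)) := by ring
      _ = e * (42 * (val e (prel rel) q p (s, i) * q (s, j))) := by rw [← ki]; ring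
  exact le_of_mul_le_mul_left h3 he

end Pool.Agent.MP_9e8696_an.H82
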