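import Pool.Agent.MP_9e8696_an.H82.Iface
import Pool.Agent.MP_9e8696_an.H82.Par0

/-!
The one-label estimate fed by the saturated vectors.
-/

namespace Pool.Agent.MP_9e8696_an.H82

open Finset hiding val
open H68

set_option linter.unusedSectionVars false

variable {τ ι : Type} [Fintype τ] [Fintype ι] [DecidableEq τ] [DecidableEq ι]

/-- The Gram matrix of the weighted vectors in `A`. -/
def gram (A : Finset τ) (P : τ → ℝ) (c : τ → ι → ℝ) (i j : ι) : ℝ := ∑ t ∈ A, P t * c t i * c t j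

lemma gram_symm (A : Finset τ) (P : τ → ℝ) (c : τ → ι → ℝ) (i j : ι) :
    gram A P c i j = gram A P c j i :=
  Finset.sum_congr rfl fun t _ => by ring

lemma qf_gram (A : Finset τ) (P : τ → ℝ) (c : τ → ι → ℝ) (u : ι → ℝ) :
    qf (gram A P c) u = ∑ t ∈ A, P t * (∑ i, c t i * u i) ^ 2 := by
  unfold qf gram
  simp only [Finset.sum_mul]
  have : ∀ t, P t * (∑ i, c t i * u i) ^ 2 = ∑ i, ∑ j, P t * c t i * c t j * u i * u j := by
    intro t
    rw [sq, Finset.sum_mul_sum, Finset.mul_sum]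
    refine Finset.sum_congr rfl fun i _ => ?_
    rw [Finset.mul_sum]
    exact Finset.sum_congr rfl fun j _ => by ring
  simp only [this]
  rw [Finset.sum_comm (s := A)]
  refine Finset.sum_congr rfl fun i _ => ?_
  rw [Finset.sum_comm]

lemma gram_diag (A : Finset τ) (P : τ → ℝ) (c : τ → ι → ℝ) (i : ι) :
    gram A P c i i = ∑ t ∈ A, P t * c t i ^ 2 :=
  Finset.sum_congr rfl fun t _ => by ring

lemma gram_add (A : Finset τ) (P : τ → ℝ) (c : τ → ι → ℝ) :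
    (fun i j => gram Aᶜ P c i j + gram A P c i j) = gram Finset.univ P c := by
  funext i j
  unfold gram
  rw [add_comm, Finset.sum_add_sum_compl]

lemma yq_gram (A : Finset τ) (P : τ → ℝ) (c : τ → ι → ℝ) (x : ι → Bool) :
    yq (gram A P c) x = ∑ t ∈ A, P t * (ew (c t) x - 1) := by
  unfold yq ew lf
  rw [qf_gram]
  simp only [gram_diag]
  rw [Finset.sum_comm (s := Finset.univ) (t := A), ← Finset.sum_sub_distrib]
  refine Finset.sum_congr rfl fun t _ => ?_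
  rw [← Finset.mul_sum]; ring

/-- The normalised Gibbs weight. -/
noncomputable def gp (e : ℝ) (J : ι → ι → ℝ) (x : ι → Bool) : ℝ := gw e J x / ∑ y, gw e J y

lemma gw_sum_pos (e : ℝ) (J : ι → ι → ℝ) : 0 < ∑ y, gw e J y :=
  Finset.sum_pos (fun _ _ => Real.exp_pos _) Finset.univ_nonempty

lemma gp_pos (e : ℝ) (J : ι → ι → ℝ) (x : ι → Bool) : 0 < gp e J x :=
  div_pos (Real.exp_pos _) (gw_sum_pos e J)

lemma gp_sum (e : ℝ) (J : ι → ι → ℝ) : ∑ x, gp e J x = 1 := by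
  unfold gp
  rw [← Finset.sum_div]
  exact div_self (gw_sum_pos e J).ne'

lemma gE_eq (e : ℝ) (J : ι → ι → ℝ) (F : (ι → Bool) → ℝ) : gE e J F = ∑ x, gp e J x * F x := by
  unfold gE gp
  rw [Finset.sum_div]
  exact Finset.sum_congr rfl fun x _ => by ring

lemma gE_yq (e : ℝ) (J : ι → ι → ℝ) (A : Finset τ) (P : τ → ℝ) (c : τ → ι → ℝ) :
    gE e J (yq (gram A P c)) = ∑ t ∈ A, P t * (gE e J (ew (c t)) - 1) := by
  simp only [gE_eq, yq_gram, Finset.mul_sum]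
  rw [Finset.sum_comm]
  refine Finset.sum_congr rfl fun t _ => ?_
  have h1 := gp_sum e J
  calc ∑ x, gp e J x * (P t * (ew (c t) x - 1))
      = P t * (∑ x, gp e J x * ew (c t) x - ∑ x, gp e J x) := by
        rw [← Finset.sum_sub_distrib, Finset.mul_sum]
        exact Finset.sum_congr rfl fun x _ => by ring
    _ = _ := by rw [h1]

lemma rpow_gam {M e : ℝ} (hM : 0 < M) (hM1 : M ≤ 1) (he1 : e ≤ 1 / 2) :
    M ^ (1 - e) * Real.exp ((1 - M) / 2) ≤ 1 := by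
  rw [Real.rpow_def_of_pos hM, ← Real.exp_add, Real.exp_le_one_iff]
  have h1 := Real.log_le_sub_one_of_pos hM
  nlinarith

/-- The one-label bound: mean of the normalised new value. -/
lemma label {C e₀ d₀ : ℝ} (hL : Loc C e₀ d₀) (hC : 0 ≤ C) {δ e : ℝ} (he : 0 < e) (he0 : e ≤ e₀)
    (hδ : 0 < δ) (hd0 : δ ≤ d₀) (hδC : δ * (C + 1) ≤ 1 / 4) (heδ : e ≤ δ)
    (A : Finset τ) (P : τ → ℝ) (P0 : ∀ t, 0 ≤ P t) (c : τ → ι → ℝ) (s : τ) (b m : ι → ℝ)
    (B E K : ℝ) (u : ι → ℝ) (hE : 0 ≤ E) (hK : 0 ≤ K)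
    (S1 : ∀ u : ι → ℝ, ∑ t, P t * (∑ i, c t i * u i) ^ 2 ≤ δ * ∑ i, u i ^ 2)
    (S2 : ∑ i, (m i - c s i) ^ 2 ≤ ∑ i, m i ^ 2 - ∑ i, c s i ^ 2)
    (S2' : ∑ i, m i ^ 2 - ∑ i, c s i ^ 2 ≤ B)
    (S3 : ∀ i, ∑ t ∈ Aᶜ, P t * c t i ^ 2 ≤ 6 * u i + K * E)
    (S4 : δ * B / 2 - 3 * E ≤ ∑ t ∈ Aᶜ, P t * (∑ i, c t i * m i) ^ 2)
    (hb : ∑ i, b i ^ 2 = 1) (hm : ∀ i, m i = b i ∨ m i = 0) :
    1 + (e * (gE e (gram Finset.univ P c) (ew (c s)) - 1)
        - ∑ t ∈ A, P t * (gE e (gram Finset.univ P c) (ew (c t)) - 1)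
        + (δ / 16 - C * e) * B - (3 / 8 + C * K) * E - 6 * C * ∑ i, m i ^ 2 * u i) ≤
      Real.exp ((1 - ∑ i, m i ^ 2) / 2) * gE e (gram Finset.univ P c)
        (fun x => (lf b x ^ 2) ^ (1 - e) * ew (c s) x ^ e * Real.exp (-yq (gram A P c) x)) := by
  set r : ι → ℝ := fun i => b i - m i with hr
  have hbr : ∀ i, b i ^ 2 = m i ^ 2 + r i ^ 2 := by
    intro i
    rcases hm i with h | h <;> simp [hr, h]
  set T := ∑ i, r i ^ 2 with hT
  have T0 : 0 ≤ T := Finset.sum_nonneg fun i _ => sq_nonneg _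
  have hMT : ∑ i, m i ^ 2 = 1 - T := by
    have : ∑ i, b i ^ 2 = ∑ i, m i ^ 2 + T := by
      rw [hT, ← Finset.sum_add_distrib]; exact Finset.sum_congr rfl fun i _ => hbr i
    linarith
  have mc0 : 0 ≤ ∑ i, (m i - c s i) ^ 2 := Finset.sum_nonneg fun i _ => sq_nonneg _
  have nn : ∀ (D : Finset τ) (u : ι → ℝ), 0 ≤ ∑ t ∈ D, P t * (∑ i, c t i * u i) ^ 2 :=
    fun D u => Finset.sum_nonneg fun t _ => mul_nonneg (P0 t) (sq_nonneg _)
  have sub : ∀ u : ι → ℝ, ∑ t ∈ Aᶜ, P t * (∑ i, c t i * u i) ^ 2 ≤ δ * ∑ i, u i ^ 2 := by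
    intro u
    have h1 := S1 u
    rw [← Finset.sum_add_sum_compl A] at h1
    have := nn A u
    linarith
  have hbc : ∑ i, (b i - c s i) ^ 2 ≤ 2 * (1 - ∑ i, c s i ^ 2) := by
    have : ∑ i, (b i - c s i) ^ 2 ≤ 2 * T + 2 * ∑ i, (m i - c s i) ^ 2 := by
      rw [hT, Finset.mul_sum, Finset.mul_sum, ← Finset.sum_add_distrib]
      refine Finset.sum_le_sum fun i _ => ?_
      simp only [hr]
      nlinarith [sq_nonneg (b i - m i - (m i - c s i))]
    linarith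
  have hl := hL ι (gram Aᶜ P c) (gram A P c) b (c s) δ e (gram_symm _ _ _) (gram_symm _ _ _)
    (fun u => by rw [qf_gram]; exact nn _ u) (fun u => by rw [qf_gram]; exact nn _ u)
    (fun u => by
      rw [qf_gram, qf_gram, add_comm, Finset.sum_add_sum_compl]; exact S1 u)
    hb (by linarith) hbc he he0 hδ hd0
  rw [gram_add, gE_yq, qf_gram] at hl
  refine le_trans ?_ (mul_le_mul_of_nonneg_left hl (Real.exp_pos _).le)
  rw [← Real.exp_add]
  refine le_trans ?_ (Real.add_one_le_exp _)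
  have g1 : δ * B / 4 - 3 * E / 2 - δ * T ≤ ∑ t ∈ Aᶜ, P t * (∑ i, c t i * b i) ^ 2 := by
    have h1 : (∑ t ∈ Aᶜ, P t * (∑ i, c t i * m i) ^ 2) / 2 -
        ∑ t ∈ Aᶜ, P t * (∑ i, c t i * r i) ^ 2 ≤ ∑ t ∈ Aᶜ, P t * (∑ i, c t i * b i) ^ 2 := by
      rw [Finset.sum_div, ← Finset.sum_sub_distrib]
      refine Finset.sum_le_sum fun t _ => ?_
      have e1 : ∑ i, c t i * b i = ∑ i, c t i * m i + ∑ i, c t i * r i := by
        rw [← Finset.sum_add_distrib]
        exact Finset.sum_congr rfl fun i _ => by simp only [hr]; ring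
      rw [e1]
      have := mul_nonneg (P0 t) (sq_nonneg (∑ i, c t i * m i + 2 * ∑ i, c t i * r i))
      nlinarith
    have h2 := sub r
    linarith
  have g2 : ∑ i, b i ^ 2 * gram Aᶜ P c i i ≤ 6 * ∑ i, m i ^ 2 * u i + K * E + δ * T := by
    have hd : ∀ i, gram Aᶜ P c i i ≤ δ := by
      intro i
      have h1 := sub (fun k => if k = i then 1 else 0)
      rw [gram_diag]
      simpa using h1
    have h1 : ∑ i, b i ^ 2 * gram Aᶜ P c i i ≤
        ∑ i, (6 * (m i ^ 2 * u i) + K * E * m i ^ 2 + δ * r i ^ 2) := by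
      refine Finset.sum_le_sum fun i _ => ?_
      have h2 := mul_le_mul_of_nonneg_left (hd i) (sq_nonneg (r i))
      have h3 := S3 i
      rw [← gram_diag] at h3
      have h4 := mul_le_mul_of_nonneg_left h3 (sq_nonneg (m i))
      rw [hbr i]
      nlinarith
    rw [Finset.sum_add_distrib, Finset.sum_add_distrib, ← Finset.mul_sum, ← Finset.mul_sum,
      ← Finset.mul_sum, hMT] at h1
    have := mul_nonneg (mul_nonneg hK hE) T0
    nlinarith
  have g3 : 1 - ∑ i, c s i ^ 2 ≤ T + B := by linarith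
  have g4 := mul_le_mul_of_nonneg_left g2 hC
  have g5 := mul_le_mul_of_nonneg_left g3 (mul_nonneg hC he.le)
  have g6 : 0 ≤ (1 / 2 - δ / 4 - C * δ - C * e) * T := by
    refine mul_nonneg ?_ T0
    have := mul_le_mul_of_nonneg_left heδ hC
    nlinarith
  rw [hMT]
  nlinarith

end Pool.Agent.MP_9e8696_an.H82
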